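import Pool.Agent.H99.KX.Fin

/-! A discrete Koebe theorem for circle packings of bounded degree, with an explicit constant. -/

namespace Pool.Agent.Results.MP_f56a4f_an.DiscreteKoebe

open Pool.Agent.H74.Koebe

universe u

/-- Put `s_d = 2 ^ (-2000 d)`. For every degree bound `d`, every combinatorial disc `K` of degree
at most `d` with maximal packing `Q` (the circle of the interior vertex `v0` being centred at `0`)
and every univalent packing `P` for `K` in which `v0` has the same circle as in `Q`, the carrier
of `P` contains the disc of radius `s_d` about `0`. -/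
theorem result (d : ℕ) : ∀ (V : Type u) (K : OComplex V), K.IsDisc → K.DegLE d →
    ∀ Q : Circles V, IsMaximal K Q → ∀ v0 : V, K.Interior v0 → Q.z v0 = 0 →
    ∀ P : Circles V, IsPacking K P → Univalent P → P.z v0 = 0 → P.r v0 = Q.r v0 →
    Metric.ball 0 ((1 / 2) ^ (2000 * d)) ⊆ carr K P := by
  intro V K hK hd Q hQ v0 hv0 hQz P hPp hPu hPz hPr
  exact Pool.Agent.H99.KX.koebe_explicit hK hd hQ hv0 hQz hPp hPu hPz hPr

end Pool.Agent.Results.MP_f56a4f_an.DiscreteKoebe
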